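import Mathlib
import Pool.Agent.Results.MP_49092c_al.Disproof

set_option autoImplicit false

/-!
# Graded algebras with three nonzero components

For a symmetric bilinear map `β : K^n × K^n → K^r` the graded algebra `K ⊕ K^n ⊕ K^r` is standard
graded when the values of `β` span, and it is universally Koszul when for every `l ≠ 0` the products
`β y v` with `β y l = 0` span `K^r`.
-/

namespace Pool.Agent.Q122.UK

open MvPolynomial
open Pool.Agent.Results.MP_49092c_al.Disproof

/-- A symmetric bilinear map. -/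
structure SB (K : Type) [Field K] (n r : ℕ) where
  b : (Fin n → K) →ₗ[K] (Fin n → K) →ₗ[K] (Fin r → K)
  symm : ∀ x y, b x y = b y x

variable {K : Type} [Field K] {n r : ℕ}

/-- The algebra `K ⊕ K^n ⊕ K^r`. -/
def Lv (_B : SB K n r) : Type := K × (Fin n → K) × (Fin r → K)

namespace Lv

variable (B : SB K n r)

instance : AddCommGroup (Lv B) := inferInstanceAs (AddCommGroup (K × (Fin n → K) × (Fin r → K)))

variable {B}

/-- The constructor. -/
def mk (a : K) (l : Fin n → K) (q : Fin r → K) : Lv B := (a, l, q)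

/-- The degree zero part. -/
def c (x : Lv B) : K := x.1
/-- The degree one part. -/
def l (x : Lv B) : Fin n → K := x.2.1
/-- The degree two part. -/
def q (x : Lv B) : Fin r → K := x.2.2

@[ext] lemma ext {x y : Lv B} (h1 : x.c = y.c) (h2 : x.l = y.l) (h3 : x.q = y.q) : x = y :=
  Prod.ext h1 (Prod.ext h2 h3)

@[simp] lemma mk_c (a : K) (v : Fin n → K) (w : Fin r → K) : (mk a v w : Lv B).c = a := rfl
@[simp] lemma mk_l (a : K) (v : Fin n → K) (w : Fin r → K) : (mk a v w : Lv B).l = v := rfl
@[simp] lemma mk_q (a : K) (v : Fin n → K) (w : Fin r → K) : (mk a v w : Lv B).q = w := rfl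
@[simp] lemma add_c (x y : Lv B) : (x + y).c = x.c + y.c := rfl
@[simp] lemma add_l (x y : Lv B) : (x + y).l = x.l + y.l := rfl
@[simp] lemma add_q (x y : Lv B) : (x + y).q = x.q + y.q := rfl
@[simp] lemma neg_c (x : Lv B) : (-x).c = -x.c := rfl
@[simp] lemma neg_l (x : Lv B) : (-x).l = -x.l := rfl
@[simp] lemma neg_q (x : Lv B) : (-x).q = -x.q := rfl
@[simp] lemma zero_c : (0 : Lv B).c = 0 := rfl
@[simp] lemma zero_l : (0 : Lv B).l = 0 := rfl
@[simp] lemma zero_q : (0 : Lv B).q = 0 := rfl

instance : One (Lv B) := ⟨mk 1 0 0⟩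
@[simp] lemma one_c : (1 : Lv B).c = 1 := rfl
@[simp] lemma one_l : (1 : Lv B).l = 0 := rfl
@[simp] lemma one_q : (1 : Lv B).q = 0 := rfl

instance : Mul (Lv B) := ⟨fun x y => mk (x.c * y.c) (x.c • y.l + y.c • x.l)
  (x.c • y.q + y.c • x.q + B.b x.l y.l)⟩
@[simp] lemma mul_c (x y : Lv B) : (x * y).c = x.c * y.c := rfl
@[simp] lemma mul_l (x y : Lv B) : (x * y).l = x.c • y.l + y.c • x.l := rfl
@[simp] lemma mul_q (x y : Lv B) : (x * y).q = x.c • y.q + y.c • x.q + B.b x.l y.l := rfl

instance : CommRing (Lv B) :=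
  { (inferInstance : AddCommGroup (Lv B)), (inferInstance : One (Lv B)),
    (inferInstance : Mul (Lv B)) with
    left_distrib := by
      intro x y z
      ext i
      · simp [mul_add]
      · simp only [mul_l, add_l, add_c, smul_add, add_smul, Pi.add_apply]; abel
      · simp only [mul_q, add_q, add_c, add_l, smul_add, add_smul, map_add, Pi.add_apply]; abel
    right_distrib := by
      intro x y z
      ext i
      · simp [add_mul]
      · simp only [mul_l, add_l, add_c, smul_add, add_smul, Pi.add_apply]; abel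
      · simp only [mul_q, add_q, add_c, add_l, smul_add, add_smul, map_add,
          LinearMap.add_apply, Pi.add_apply]; abel
    zero_mul := by intro x; ext i <;> simp
    mul_zero := by intro x; ext i <;> simp
    mul_assoc := by
      intro x y z
      ext i
      · simp [mul_assoc]
      · simp only [mul_l, mul_c, smul_add, smul_smul, Pi.add_apply, Pi.smul_apply, smul_eq_mul]
        ring
      · simp only [mul_q, mul_l, mul_c, smul_add, smul_smul, Pi.add_apply, Pi.smul_apply,
          smul_eq_mul, map_add, map_smul, LinearMap.add_apply, LinearMap.smul_apply]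
        ring
    one_mul := by intro x; ext i <;> simp
    mul_one := by intro x; ext i <;> simp
    mul_comm := by
      intro x y
      ext i
      · simp [mul_comm]
      · simp only [mul_l, Pi.add_apply]; abel
      · simp only [mul_q, Pi.add_apply, B.symm x.l y.l]; abel }

/-- Constants. -/
def emb (B : SB K n r) : K →+* Lv B where
  toFun a := mk a 0 0
  map_zero' := rfl
  map_one' := rfl
  map_add' a b := by ext i <;> simp
  map_mul' a b := by ext i <;> simp

@[simp] lemma emb_c (a : K) : (emb B a).c = a := rfl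
@[simp] lemma emb_l (a : K) : (emb B a).l = 0 := rfl
@[simp] lemma emb_q (a : K) : (emb B a).q = 0 := rfl

/-- The graded pieces. -/
def gr (B : SB K n r) : ℕ → Lv B → Prop
  | 0, x => x.l = 0 ∧ x.q = 0
  | 1, x => x.c = 0 ∧ x.q = 0
  | 2, x => x.c = 0 ∧ x.l = 0
  | _ + 3, x => x = 0

/-- The projections. -/
def proj (B : SB K n r) : ℕ → Lv B → Lv B
  | 0, x => mk x.c 0 0
  | 1, x => mk 0 x.l 0
  | 2, x => mk 0 0 x.q
  | _ + 3, _ => 0

lemma proj_add (i : ℕ) (x y : Lv B) : proj B i (x + y) = proj B i x + proj B i y := by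
  match i with
  | 0 => ext j <;> simp [proj]
  | 1 => ext j <;> simp [proj]
  | 2 => ext j <;> simp [proj]
  | i + 3 => ext j <;> simp [proj]

lemma proj_zero (i : ℕ) : proj B i (0 : Lv B) = 0 := by
  match i with
  | 0 => ext j <;> simp [proj]
  | 1 => ext j <;> simp [proj]
  | 2 => ext j <;> simp [proj]
  | i + 3 => rfl

lemma proj_sum {ι : Type*} (s : Finset ι) (f : ι → Lv B) (i : ℕ) :
    proj B i (∑ j ∈ s, f j) = ∑ j ∈ s, proj B i (f j) := by
  classical
  induction s using Finset.induction_on with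
  | empty => simp [proj_zero]
  | insert a s ha ih => rw [Finset.sum_insert ha, Finset.sum_insert ha, proj_add, ih]

lemma proj_gr {i : ℕ} {x : Lv B} (h : gr B i x) : proj B i x = x := by
  match i with
  | 0 => ext j <;> simp [proj, h.1, h.2]
  | 1 => ext j <;> simp [proj, h.1, h.2]
  | 2 => ext j <;> simp [proj, h.1, h.2]
  | i + 3 => exact h.symm

lemma proj_gr_ne {i j : ℕ} {x : Lv B} (h : gr B j x) (hij : j ≠ i) : proj B i x = 0 := by
  match i, j with
  | 0, 0 => exact absurd rfl hij
  | 1, 1 => exact absurd rfl hij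
  | 2, 2 => exact absurd rfl hij
  | 0, 1 => ext j <;> simp [proj, h.1]
  | 0, 2 => ext j <;> simp [proj, h.1]
  | 1, 0 => ext j <;> simp [proj, h.1]
  | 1, 2 => ext j <;> simp [proj, h.2]
  | 2, 0 => ext j <;> simp [proj, h.2]
  | 2, 1 => ext j <;> simp [proj, h.2]
  | i + 3, _ => rfl
  | 0, j + 3 => rw [show x = 0 from h, proj_zero]
  | 1, j + 3 => rw [show x = 0 from h, proj_zero]
  | 2, j + 3 => rw [show x = 0 from h, proj_zero]

lemma gr_mul_one {i : ℕ} {x y : Lv B} (h : gr B i x) (hy : gr B 1 y) : gr B (i + 1) (x * y) := by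
  obtain ⟨h1, h2⟩ := hy
  match i with
  | 0 => exact ⟨by simp [h1], by simp [h1, h2, h.1]⟩
  | 1 => exact ⟨by simp [h1], by ext j; simp [h1, h.1]⟩
  | 2 =>
    show x * y = 0
    ext j
    · simp [h1]
    · simp [h1, h.1]
    · simp [h1, h2, h.2]
  | i + 3 =>
    show x * y = 0
    rw [show x = 0 from h, zero_mul]

variable (B)

/-- The presentation. -/
noncomputable def phi : MvPolynomial (Fin n) K →+* Lv B :=
  eval₂Hom (emb B) (fun i => mk 0 (Pi.single i 1) 0)

@[simp] lemma phi_C (a : K) : phi B (C a) = emb B a := by simp [phi]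
@[simp] lemma phi_X (i : Fin n) : phi B (X i) = mk 0 (Pi.single i 1) 0 := by simp [phi]

lemma gr_smul {i : ℕ} {x : Lv B} (h : gr B i x) (a : K) : gr B i (emb B a * x) := by
  match i with
  | 0 => exact ⟨by ext j; simp [h.1], by ext j; simp [h.1, h.2]⟩
  | 1 => exact ⟨by simp [h.1], by ext j; simp [h.1, h.2]⟩
  | 2 => exact ⟨by simp [h.1], by ext j; simp [h.1, h.2]⟩
  | i + 3 =>
    show emb B a * x = 0
    rw [show x = 0 from h, mul_zero]

lemma gr_add {i : ℕ} {x y : Lv B} (h : gr B i x) (h' : gr B i y) : gr B i (x + y) := by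
  match i with
  | 0 => exact ⟨by simp [h.1, h'.1], by simp [h.2, h'.2]⟩
  | 1 => exact ⟨by simp [h.1, h'.1], by simp [h.2, h'.2]⟩
  | 2 => exact ⟨by simp [h.1, h'.1], by simp [h.2, h'.2]⟩
  | i + 3 =>
    show x + y = 0
    rw [show x = 0 from h, show y = 0 from h', add_zero]

lemma gr_zero (i : ℕ) : gr B i 0 := by
  match i with
  | 0 => exact ⟨rfl, rfl⟩
  | 1 => exact ⟨rfl, rfl⟩
  | 2 => exact ⟨rfl, rfl⟩
  | i + 3 => rfl

lemma gr_sum {ι : Type*} (s : Finset ι) (f : ι → Lv B) (i : ℕ) (h : ∀ j ∈ s, gr B i (f j)) :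
    gr B i (∑ j ∈ s, f j) := by
  classical
  induction s using Finset.induction_on with
  | empty => simpa using gr_zero B i
  | insert a s ha ih =>
    rw [Finset.sum_insert ha]
    exact gr_add B (h a (by simp)) (ih fun j hj => h j (by simp [hj]))

lemma phi_monomial (s : Fin n →₀ ℕ) : gr B s.degree (phi B (monomial s 1)) := by
  induction s using Finsupp.induction with
  | zero => 
    rw [show (monomial (0 : Fin n →₀ ℕ) (1 : K)) = C 1 from rfl, phi_C]
    have h : gr B 0 (emb B (1 : K)) := ⟨rfl, rfl⟩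
    simpa only [map_zero] using h
  | single_add i e s hs he ih =>
    have : ∀ e : ℕ, gr B (Finsupp.degree (Finsupp.single i e + s))
        (phi B (monomial (Finsupp.single i e + s) 1)) := by
      intro e
      induction e with
      | zero => simpa using ih
      | succ e ihe =>
        have h1 : Finsupp.single i (e + 1) + s = (Finsupp.single i e + s) + Finsupp.single i 1 := by
          rw [Finsupp.single_add]; abel
        have h2 : (monomial ((Finsupp.single i e + s) + Finsupp.single i 1) (1 : K)) =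
            monomial (Finsupp.single i e + s) 1 * X i := by
          rw [X, monomial_mul, one_mul]
        rw [h1, h2, map_mul, phi_X, map_add, Finsupp.degree_single]
        exact gr_mul_one ihe ⟨rfl, rfl⟩
    exact this e

lemma phi_hom {d : ℕ} {p : MvPolynomial (Fin n) K} (hp : p.IsHomogeneous d) : gr B d (phi B p) := by
  rw [p.as_sum, map_sum]
  apply gr_sum
  intro s hs
  have h1 : s.degree = d := by
    have := hp (mem_support_iff.mp hs)
    rw [← this, Finsupp.degree_eq_weight_one]
    rfl
  have h2 : monomial s (coeff s p) = C (coeff s p) * monomial s (1 : K) := by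
    rw [C_mul_monomial, mul_one]
  rw [h2, map_mul, phi_C, ← h1]
  exact gr_smul B (phi_monomial B s) _

lemma phi_comp (p : MvPolynomial (Fin n) K) (i : ℕ) :
    phi B (homogeneousComponent i p) = proj B i (phi B p) := by
  conv_rhs => rw [← sum_homogeneousComponent p, map_sum, proj_sum]
  by_cases hi : i ∈ Finset.range (p.totalDegree + 1)
  · rw [Finset.sum_eq_single_of_mem i hi]
    · exact (proj_gr (phi_hom B (homogeneousComponent_isHomogeneous i p))).symm
    · intro j _ hj
      exact proj_gr_ne (phi_hom B (homogeneousComponent_isHomogeneous j p)) hj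
  · rw [Finset.sum_eq_zero, homogeneousComponent_eq_zero, map_zero]
    · rw [Finset.mem_range] at hi
      omega
    · intro j hj
      exact proj_gr_ne (phi_hom B (homogeneousComponent_isHomogeneous j p)) (fun h => hi (h ▸ hj))

lemma phi_coeff (p : MvPolynomial (Fin n) K) : (phi B p).c = coeff 0 p ∧
    ∀ i, (phi B p).l i = coeff (Finsupp.single i 1) p := by
  induction p using MvPolynomial.induction_on with
  | C a =>
    rw [phi_C]
    refine ⟨by simp, fun i => ?_⟩
    rw [emb_l, coeff_C, if_neg]
    · rfl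
    · intro h
      have := congrArg (fun f => f i) h
      simp at this
  | add p q hp hq =>
    rw [map_add]
    refine ⟨by simp [hp.1, hq.1], fun i => by simp [hp.2 i, hq.2 i]⟩
  | mul_X p j hp =>
    rw [map_mul, phi_X]
    refine ⟨?_, fun i => ?_⟩
    · rw [mul_c, mk_c, mul_zero, coeff_mul_X', if_neg (by simp)]
    · rw [mul_l, mk_l, mk_c, zero_smul, add_zero, Pi.smul_apply, hp.1, smul_eq_mul, coeff_mul_X']
      by_cases hij : i = j
      · subst hij
        simp
      · rw [if_neg]
        · rw [Pi.single_apply, if_neg hij, mul_zero]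
        · simpa [Finsupp.single_apply] using fun h : j = i => hij h.symm

/-- The ideal of relations. -/
noncomputable def J : Ideal (MvPolynomial (Fin n) K) := RingHom.ker (phi B)

lemma mem_J (p : MvPolynomial (Fin n) K) : p ∈ J B ↔ phi B p = 0 := RingHom.mem_ker

lemma J_hom : ∀ p ∈ J B, ∀ i : ℕ, homogeneousComponent i p ∈ J B := by
  intro p hp i
  rw [mem_J] at hp ⊢
  rw [phi_comp, hp, proj_zero]

lemma J_le : J B ≤ Ideal.span (Set.range (X : Fin n → MvPolynomial (Fin n) K)) ^ 2 := by
  intro p hp
  have hp' := (mem_J B p).mp hp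
  have h := phi_coeff B p
  rw [hp'] at h
  show p ∈ (idealOfVars (Fin n) K) ^ 2
  rw [mem_pow_idealOfVars_iff']
  intro s hs
  have hs' : s.degree = 0 ∨ s.degree = 1 := by omega
  rcases hs' with h0 | h1
  · have : s = 0 := by
      rwa [Finsupp.degree_eq_zero_iff] at h0
    rw [this, ← h.1]; rfl
  · obtain ⟨i, rfl⟩ : ∃ i, s = Finsupp.single i 1 := by
      exact (Finsupp.sum_eq_one_iff s).mp h1
    rw [← h.2 i]; rfl

lemma J_standard : IsStandard (J B) := ⟨J_hom B, J_le B⟩

/-- The values of the bilinear map span. -/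
def Spans : Prop := ∀ w : Fin r → K, w ∈ Submodule.span K {z | ∃ x y, z = B.b x y}

variable {B}

lemma phi_surj (hB : Spans B) : Function.Surjective (phi B) := by
  have h1 : ∀ v : Fin n → K, ∃ p, phi B p = mk 0 v 0 := by
    intro v
    refine ⟨∑ i, C (v i) * X i, ?_⟩
    rw [map_sum]
    have : ∀ i, phi B (C (v i) * X i) = mk 0 (Pi.single i (v i)) 0 := by
      intro i
      rw [map_mul, phi_C, phi_X]
      ext j
      · simp
      · simp [Pi.single_apply]
      · simp
    simp only [this]
    have h2 : ∀ s : Finset (Fin n), (∑ i ∈ s, (mk 0 (Pi.single i (v i)) 0 : Lv B)) =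
        mk 0 (∑ i ∈ s, Pi.single i (v i)) 0 := by
      intro s
      classical
      induction s using Finset.induction_on with
      | empty => simp; rfl
      | insert a s ha ih =>
        rw [Finset.sum_insert ha, ih, Finset.sum_insert ha]
        ext j <;> simp
    rw [h2, Finset.univ_sum_single]
  have h2 : ∀ w : Fin r → K, ∃ p, phi B p = mk 0 0 w := by
    intro w
    refine Submodule.span_induction (p := fun w _ => ∃ p, phi B p = mk 0 0 w) ?_ ?_ ?_ ?_ (hB w)
    · rintro _ ⟨x, y, rfl⟩
      obtain ⟨p, hp⟩ := h1 x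
      obtain ⟨q, hq⟩ := h1 y
      refine ⟨p * q, ?_⟩
      rw [map_mul, hp, hq]
      ext j <;> simp
    · exact ⟨0, by rw [map_zero]; rfl⟩
    · rintro x y _ _ ⟨p, hp⟩ ⟨q, hq⟩
      refine ⟨p + q, ?_⟩
      rw [map_add, hp, hq]
      ext j <;> simp
    · rintro a x _ ⟨p, hp⟩
      refine ⟨C a * p, ?_⟩
      rw [map_mul, hp, phi_C]
      ext j <;> simp
  intro x
  obtain ⟨p, hp⟩ := h1 x.l
  obtain ⟨q, hq⟩ := h2 x.q
  refine ⟨C x.c + p + q, ?_⟩
  rw [map_add, map_add, hp, hq, phi_C]
  ext j <;> simp

/-- The isomorphism of the quotient with the model. -/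
noncomputable def e (hB : Spans B) : (MvPolynomial (Fin n) K ⧸ J B) ≃+* Lv B :=
  RingHom.quotientKerEquivOfSurjective (phi_surj hB)

lemma e_mk (hB : Spans B) (p : MvPolynomial (Fin n) K) :
    e hB (Ideal.Quotient.mk (J B) p) = phi B p := rfl

lemma isForm_iff (hB : Spans B) (i : ℕ) (x : MvPolynomial (Fin n) K ⧸ J B) :
    IsForm (J B) i x ↔ gr B i (e hB x) := by
  constructor
  · rintro ⟨p, hp, rfl⟩
    rw [e_mk]
    exact phi_hom B hp
  · intro h
    obtain ⟨p, rfl⟩ := Ideal.Quotient.mk_surjective x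
    refine ⟨homogeneousComponent i p, homogeneousComponent_isHomogeneous i p, ?_⟩
    apply (e hB).injective
    rw [e_mk, e_mk, phi_comp]
    exact proj_gr h

/-- The condition for universal Koszulness. -/
def Good (B : SB K n r) : Prop := ∀ l : Fin n → K, l ≠ 0 → ∀ w : Fin r → K,
  w ∈ Submodule.span K {z | ∃ y v, B.b y l = 0 ∧ z = B.b y v}

lemma colonProp (hG : Good B) : ColonProp (gr B 1) := by
  intro C hC c hc hcC
  have hl : c.l ≠ 0 := by
    intro h
    apply hcC
    have : c = 0 := Lv.ext hc.1 h hc.2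
    rw [this]; exact C.zero_mem
  -- the linear part of an element of `C` without constant term
  have hpart : ∀ x ∈ C, x.c = 0 ∧ mk 0 x.l 0 ∈ C := by
    intro x hx
    rw [hC] at hx
    refine Submodule.span_induction (p := fun x _ => x.c = 0 ∧ mk 0 x.l 0 ∈ C) ?_ ?_ ?_ ?_ hx
    · rintro y ⟨hyC, hy⟩
      refine ⟨hy.1, ?_⟩
      have : (mk 0 y.l 0 : Lv B) = y := Lv.ext hy.1.symm rfl hy.2.symm
      rw [this]; exact hyC
    · exact ⟨rfl, C.zero_mem⟩
    · rintro x y _ _ ⟨h1, h2⟩ ⟨h3, h4⟩
      refine ⟨by simp [h1, h3], ?_⟩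
      have : (mk 0 (x + y).l 0 : Lv B) = mk 0 x.l 0 + mk 0 y.l 0 := by ext j <;> simp
      rw [this]; exact C.add_mem h2 h4
    · rintro a x _ ⟨h1, h2⟩
      refine ⟨by simp [h1], ?_⟩
      have : (mk 0 (a • x).l 0 : Lv B) = emb B a.c * mk 0 x.l 0 := by
        ext j
        · simp
        · simp [h1]
        · simp
      rw [this]; exact C.mul_mem_left _ h2
  set D : Ideal (Lv B) := Submodule.comap (LinearMap.toSpanSingleton (Lv B) (Lv B) c) C with hD
  have hDmem : ∀ x, x ∈ D ↔ x * c ∈ C := fun x => mem_comap_iff _ _ _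
  apply le_antisymm
  · intro x hx
    rw [hDmem] at hx
    have h0 : x.c = 0 := by
      by_contra h0
      apply hcC
      have h1 := (hpart _ hx).2
      have h2 : c = emb B (x.c)⁻¹ * mk 0 (x * c).l 0 := by
        ext j
        · simp [hc.1]
        · simp [hc.1, h0]
        · simp [hc.2]
      rw [h2]; exact C.mul_mem_left _ h1
    have hx' : x = mk 0 x.l 0 + mk 0 0 x.q := by ext j <;> simp [h0]
    rw [hx']
    refine Ideal.add_mem _ (Ideal.subset_span ⟨?_, rfl, rfl⟩) ?_
    · rw [hDmem]
      have : (mk 0 x.l 0 : Lv B) * c = x * c := by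
        ext j
        · simp [hc.1]
        · simp [hc.1, h0]
        · simp [hc.1, h0, hc.2]
      rw [this]; exact hx
    · refine Submodule.span_induction (p := fun w _ => (mk 0 0 w : Lv B) ∈
        Ideal.span {x | x ∈ D ∧ gr B 1 x}) ?_ ?_ ?_ ?_ (hG c.l hl x.q)
      · rintro _ ⟨y, v, hy, rfl⟩
        have : (mk 0 0 (B.b y v) : Lv B) = mk 0 v 0 * mk 0 y 0 := by
          ext j
          · simp
          · simp
          · simp [B.symm y v]
        rw [this]
        refine Ideal.mul_mem_left _ _ (Ideal.subset_span ⟨?_, rfl, rfl⟩)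
        rw [hDmem]
        have : (mk 0 y 0 : Lv B) * c = 0 := by
          ext j
          · simp [hc.1]
          · simp [hc.1]
          · simp [hc.1, hy]
        rw [this]; exact C.zero_mem
      · exact Ideal.zero_mem _
      · intro w w' _ _ h h'
        have : (mk 0 0 (w + w') : Lv B) = mk 0 0 w + mk 0 0 w' := by ext j <;> simp
        rw [this]; exact Ideal.add_mem _ h h'
      · intro a w _ h
        have : (mk 0 0 (a • w) : Lv B) = emb B a * mk 0 0 w := by ext j <;> simp
        rw [this]; exact Ideal.mul_mem_left _ _ h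
  · rw [Ideal.span_le]
    exact fun x hx => hx.1

theorem universallyKoszul (hB : Spans B) (hG : Good B) : UniversallyKoszul (J B) := by
  intro I hI
  have hcol : ColonProp (IsForm (J B) 1) :=
    ColonProp.of_equiv (e hB) _ (gr B 1) (isForm_iff hB 1) (colonProp hG)
  exact exists_linear_resolution (IsForm.zero 1) (fun r hr => hr.neg) (liftProp (J_hom B)) hcol I hI

end Lv

end Pool.Agent.Q122.UK
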