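import Mathlib

set_option autoImplicit false

/-!
# Splicing an infinite resolution

Let `X`, `Y` be square matrices of size two with `ker X = im Y + im S` and `ker Y = im X + im S`,
where `S` is killed by an ideal `m` with a known resolution. The minimal resolution of the cokernel
of `X` is put together from `X, Y, X, …`, from `S` and from copies of the resolution of `m`.
-/

namespace Pool.Agent.Q122.UK

open Matrix

/-- Index sets of the copies of the resolution of `m`. -/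
def kap (γ : ℕ → Type) : ℕ → ℕ → Type
  | 0, _ => Empty
  | i + 1, j => (Fin 2 × γ j) ⊕ kap γ i (j + 1)

instance kapFintype (γ : ℕ → Type) [∀ j, Fintype (γ j)] : ∀ i j, Fintype (kap γ i j)
  | 0, _ => inferInstanceAs (Fintype Empty)
  | i + 1, j =>
    haveI := kapFintype γ i (j + 1)
    inferInstanceAs (Fintype ((Fin 2 × γ j) ⊕ kap γ i (j + 1)))

section

variable {R : Type} [CommRing R] {α β : Type} [Fintype α] [Fintype β]

/-- Two copies of a matrix. -/
def dbl (M : Matrix α β R) : Matrix (Fin 2 × α) (Fin 2 × β) R :=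
  fun p q => if p.1 = q.1 then M p.2 q.2 else 0

lemma dbl_mulVec (M : Matrix α β R) (v : Fin 2 × β → R) (a : Fin 2) (p : α) :
    (dbl M *ᵥ v) (a, p) = (M *ᵥ fun q => v (a, q)) p := by
  simp only [mulVec, dotProduct, dbl]
  rw [Fintype.sum_prod_type]
  rw [Finset.sum_eq_single a]
  · simp
  · intro b _ hb
    apply Finset.sum_eq_zero
    intro q _
    rw [if_neg (Ne.symm hb), zero_mul]
  · simp

lemma dbl_exact {δ : Type} [Fintype δ] (M : Matrix α β R) (N : Matrix β δ R)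
    (h : ∀ v : β → R, M *ᵥ v = 0 ↔ ∃ w, N *ᵥ w = v) (v : Fin 2 × β → R) :
    dbl M *ᵥ v = 0 ↔ ∃ w, dbl N *ᵥ w = v := by
  constructor
  · intro hv
    have h1 : ∀ a : Fin 2, ∃ w, N *ᵥ w = fun q => v (a, q) := by
      intro a
      rw [← h]
      ext p
      rw [← dbl_mulVec, hv]; rfl
    choose w hw using h1
    refine ⟨fun p => w p.1 p.2, ?_⟩
    ext ⟨a, p⟩
    rw [dbl_mulVec]
    exact congrFun (hw a) p
  · rintro ⟨w, rfl⟩
    ext ⟨a, p⟩
    rw [dbl_mulVec]
    have h1 : (fun q => (dbl N *ᵥ w) (a, q)) = N *ᵥ fun q => w (a, q) := by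
      ext q; rw [dbl_mulVec]
    rw [h1]
    exact congrFun ((h _).mpr ⟨_, rfl⟩) p

variable (γ : ℕ → Type) [∀ j, Fintype (γ j)] (D : ∀ j, Matrix (γ j) (γ (j + 1)) R)

/-- The differential on the copies of the resolution of `m`. -/
def EE : ∀ i j, Matrix (kap γ i j) (kap γ i (j + 1)) R
  | 0, _ => fun x _ => x.elim
  | i + 1, j => Matrix.fromBlocks (dbl (D j)) 0 0 (EE i (j + 1))

lemma EE_succ_mulVec (i j : ℕ) (v : kap γ (i + 1) (j + 1) → R) :
    (EE γ D (i + 1) j) *ᵥ v =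
      (Sum.elim (dbl (D j) *ᵥ fun x => v (Sum.inl x)) ((EE γ D i (j + 1)) *ᵥ fun x => v (Sum.inr x)) :
        (Fin 2 × γ j) ⊕ kap γ i (j + 1) → R) := by
  show Matrix.fromBlocks (dbl (D j)) 0 0 (EE γ D i (j + 1)) *ᵥ _ = _
  rw [Matrix.fromBlocks_mulVec]
  simp only [Matrix.zero_mulVec, add_zero, zero_add]
  rfl

lemma EE_exact (hD : ∀ j (v : γ (j + 1) → R), D j *ᵥ v = 0 ↔ ∃ w, D (j + 1) *ᵥ w = v) :
    ∀ i j (v : kap γ i (j + 1) → R), EE γ D i j *ᵥ v = 0 ↔ ∃ w, EE γ D i (j + 1) *ᵥ w = v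
  | 0, j, v => by
    constructor
    · intro _
      exact ⟨fun x => x.elim, by ext x; exact x.elim⟩
    · intro _
      ext x; exact x.elim
  | i + 1, j, v => by
    rw [EE_succ_mulVec]
    constructor
    · intro h
      have h1 : dbl (D j) *ᵥ (fun x => v (Sum.inl x)) = 0 := by
        ext x; exact congrFun h (Sum.inl x)
      have h2 : EE γ D i (j + 1) *ᵥ (fun x => v (Sum.inr x)) = 0 := by
        ext x; exact congrFun h (Sum.inr x)
      obtain ⟨w1, hw1⟩ := (dbl_exact (D j) (D (j + 1)) (hD j) _).mp h1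
      obtain ⟨w2, hw2⟩ := (EE_exact hD i (j + 1) _).mp h2
      refine ⟨Sum.elim w1 w2, ?_⟩
      rw [EE_succ_mulVec]
      ext x
      rcases x with x | x
      · exact congrFun hw1 x
      · exact congrFun hw2 x
    · rintro ⟨w, rfl⟩
      rw [EE_succ_mulVec]
      have h1 : dbl (D j) *ᵥ (dbl (D (j + 1)) *ᵥ fun x => w (Sum.inl x)) = 0 :=
        (dbl_exact (D j) (D (j + 1)) (hD j) _).mpr ⟨_, rfl⟩
      have h2 : EE γ D i (j + 1) *ᵥ (EE γ D i (j + 1 + 1) *ᵥ fun x => w (Sum.inr x)) = 0 :=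
        (EE_exact hD i (j + 1) _).mpr ⟨_, rfl⟩
      ext x
      rcases x with x | x
      · exact congrFun h1 x
      · exact congrFun h2 x

/-- Index sets of the resolution. -/
def idx : ℕ → Type
  | 0 => Fin 2
  | i + 1 => Fin 2 ⊕ kap γ i 0

instance idxFintype : ∀ i, Fintype (idx γ i)
  | 0 => inferInstanceAs (Fintype (Fin 2))
  | i + 1 => inferInstanceAs (Fintype (Fin 2 ⊕ kap γ i 0))

/-- Degrees of the generators. -/
def dg : (i : ℕ) → idx γ i → ℤ
  | 0, _ => 0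
  | i + 1, x => Sum.elim (fun _ => (i : ℤ) + 1) (fun _ => (i : ℤ) + 2) x

/-- `X` and `Y` alternate. -/
def alt (X Y : Matrix (Fin 2) (Fin 2) R) : ℕ → Matrix (Fin 2) (Fin 2) R
  | 0 => X
  | i + 1 => alt Y X i

/-- The block of `S`. -/
def SS (S : Matrix (Fin 2) (Fin 2) R) (i : ℕ) : Matrix (Fin 2) ((Fin 2 × γ 0) ⊕ kap γ i 1) R :=
  Matrix.fromCols (fun r p => S r p.1) 0

/-- The differentials of the resolution. -/
def AA (X Y S : Matrix (Fin 2) (Fin 2) R) : (i : ℕ) → Matrix (idx γ i) (idx γ (i + 1)) R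
  | 0 => (Matrix.fromCols X 0 : Matrix (Fin 2) (Fin 2 ⊕ kap γ 0 0) R)
  | i + 1 => (Matrix.fromBlocks (alt X Y (i + 1)) (SS γ S i) 0 (Matrix.fromCols 0 (EE γ D i 0)) :
      Matrix (Fin 2 ⊕ kap γ i 0) (Fin 2 ⊕ ((Fin 2 × γ 0) ⊕ kap γ i 1)) R)

variable (X Y S : Matrix (Fin 2) (Fin 2) R)

lemma AA_zero_mulVec (v : idx γ 1 → R) :
    AA γ D X Y S 0 *ᵥ v = (X *ᵥ fun x => v (Sum.inl x) : Fin 2 → R) := by
  show (Matrix.fromCols X 0 : Matrix (Fin 2) (Fin 2 ⊕ kap γ 0 0) R) *ᵥ _ = _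
  rw [Matrix.fromCols_mulVec, Matrix.zero_mulVec, add_zero]
  rfl

lemma AA_succ_mulVec [Unique (γ 0)] (i : ℕ) (v : idx γ (i + 2) → R) :
    AA γ D X Y S (i + 1) *ᵥ v =
      (Sum.elim (alt X Y (i + 1) *ᵥ (fun x => v (Sum.inl x)) +
          S *ᵥ (fun a => v (Sum.inr (Sum.inl (a, default)))))
        (EE γ D i 0 *ᵥ fun x => v (Sum.inr (Sum.inr x))) : Fin 2 ⊕ kap γ i 0 → R) := by
  show (Matrix.fromBlocks (alt X Y (i + 1)) (SS γ S i) 0 (Matrix.fromCols 0 (EE γ D i 0)) :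
      Matrix (Fin 2 ⊕ kap γ i 0) (Fin 2 ⊕ ((Fin 2 × γ 0) ⊕ kap γ i 1)) R) *ᵥ _ = _
  rw [Matrix.fromBlocks_mulVec, SS, Matrix.fromCols_mulVec, Matrix.fromCols_mulVec,
    Matrix.zero_mulVec, Matrix.zero_mulVec, Matrix.zero_mulVec, zero_add, zero_add, add_zero]
  congr 2
  ext r
  simp only [mulVec, dotProduct]
  rw [Fintype.sum_prod_type]
  refine Finset.sum_congr rfl fun a _ => ?_
  rw [Fintype.sum_unique]
  rfl

/-- The exactness data. -/
structure Splice (m : Ideal R) : Prop where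
  hX : ∀ v, X *ᵥ v = 0 ↔ ∃ w c, v = Y *ᵥ w + S *ᵥ c
  hY : ∀ v, Y *ᵥ v = 0 ↔ ∃ w c, v = X *ᵥ w + S *ᵥ c
  hXS : ∀ v c, X *ᵥ v + S *ᵥ c = 0 → X *ᵥ v = 0 ∧ ∀ i, c i ∈ m
  hYS : ∀ v c, Y *ᵥ v + S *ᵥ c = 0 → Y *ᵥ v = 0 ∧ ∀ i, c i ∈ m
  hS : ∀ c : Fin 2 → R, (∀ i, c i ∈ m) → S *ᵥ c = 0

variable {X Y S}

lemma Splice.symm {m : Ideal R} (h : Splice X Y S m) : Splice Y X S m :=
  ⟨h.hY, h.hX, h.hYS, h.hXS, h.hS⟩

lemma Splice.alt {m : Ideal R} (h : Splice X Y S m) (i : ℕ) :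
    Splice (alt X Y i) (Pool.Agent.Q122.UK.alt X Y (i + 1)) S m := by
  induction i generalizing X Y with
  | zero => exact h
  | succ i ih => exact ih h.symm

variable {m : Ideal R}

theorem AA_exact [Unique (γ 0)] (h : Splice X Y S m)
    (hD : ∀ j (v : γ (j + 1) → R), D j *ᵥ v = 0 ↔ ∃ w, D (j + 1) *ᵥ w = v)
    (hm : ∀ x : R, x ∈ m ↔ ∃ w, D 0 *ᵥ w = fun _ => x) (i : ℕ) (v : idx γ (i + 1) → R) :
    AA γ D X Y S i *ᵥ v = 0 ↔ ∃ w, AA γ D X Y S (i + 1) *ᵥ w = v := by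
  rcases i with _ | i
  · rw [AA_zero_mulVec]
    constructor
    · intro hv
      obtain ⟨w, c, hwc⟩ := (h.hX _).mp hv
      refine ⟨Sum.elim w (Sum.elim (fun p => c p.1) fun x => x.elim), ?_⟩
      rw [AA_succ_mulVec]
      ext x
      rcases x with x | x
      · exact (congrFun hwc x).symm
      · exact x.elim
    · rintro ⟨w, rfl⟩
      rw [AA_succ_mulVec]
      exact (h.hX _).mpr ⟨_, _, rfl⟩
  · have hs := h.alt (i + 1)
    rw [AA_succ_mulVec]
    constructor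
    · intro hv
      have h1 : alt X Y (i + 1) *ᵥ (fun x => v (Sum.inl x)) +
          S *ᵥ (fun a => v (Sum.inr (Sum.inl (a, default)))) = 0 := by
        ext x; exact congrFun hv (Sum.inl x)
      have h2 : EE γ D i 0 *ᵥ (fun x => v (Sum.inr (Sum.inr x))) = 0 := by
        ext x; exact congrFun hv (Sum.inr x)
      obtain ⟨h3, h4⟩ := hs.hXS _ _ h1
      obtain ⟨w, c, hwc⟩ := (hs.hX _).mp h3
      obtain ⟨u, hu⟩ := (EE_exact γ D hD i 0 _).mp h2
      choose w1 hw1 using fun a => (hm _).mp (h4 a)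
      refine ⟨Sum.elim w (Sum.elim (fun p => c p.1)
        (Sum.elim (fun p => w1 p.1 p.2) u)), ?_⟩
      rw [AA_succ_mulVec]
      ext x
      rcases x with x | x
      · exact (congrFun hwc x).symm
      · show (EE γ D (i + 1) 0 *ᵥ (Sum.elim (fun p => w1 p.1 p.2) u :
          (Fin 2 × γ 1) ⊕ kap γ i 2 → R)) x = _
        rw [EE_succ_mulVec]
        rcases x with ⟨a, p⟩ | x
        · show (dbl (D 0) *ᵥ fun p => w1 p.1 p.2) (a, p) = _
          rw [dbl_mulVec]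
          have := congrFun (hw1 a) p
          rw [show p = default from Subsingleton.elim _ _] at this ⊢
          exact this
        · exact congrFun hu x
    · rintro ⟨w, rfl⟩
      rw [AA_succ_mulVec]
      have h1 : (fun x : kap γ (i + 1) 0 =>
          (Sum.elim (alt X Y (i + 1 + 1) *ᵥ (fun x => w (Sum.inl x)) +
          S *ᵥ (fun a => w (Sum.inr (Sum.inl (a, default)))))
        (EE γ D (i + 1) 0 *ᵥ fun x => w (Sum.inr (Sum.inr x))) : Fin 2 ⊕ kap γ (i + 1) 0 → R)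
          (Sum.inr x)) = EE γ D (i + 1) 0 *ᵥ fun x => w (Sum.inr (Sum.inr x)) := rfl
      have h2 := EE_succ_mulVec γ D i 0 (fun x => w (Sum.inr (Sum.inr x)))
      ext x
      rcases x with x | x
      · have h3 : alt X Y (i + 1) *ᵥ (alt X Y (i + 1 + 1) *ᵥ (fun x => w (Sum.inl x)) +
          S *ᵥ (fun a => w (Sum.inr (Sum.inl (a, default))))) = 0 := (hs.hX _).mpr ⟨_, _, rfl⟩
        have h4 : S *ᵥ (fun a => (EE γ D (i + 1) 0 *ᵥ fun x => w (Sum.inr (Sum.inr x)))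
            (Sum.inl (a, default))) = 0 := by
          apply hs.hS
          intro a
          rw [hm, h2]
          refine ⟨fun q => w (Sum.inr (Sum.inr (Sum.inl (a, q)))), ?_⟩
          ext p
          show _ = (dbl (D 0) *ᵥ _) (a, default)
          rw [dbl_mulVec, show p = default from Subsingleton.elim _ _]
        show (alt X Y (i + 1) *ᵥ (alt X Y (i + 1 + 1) *ᵥ (fun x => w (Sum.inl x)) +
          S *ᵥ (fun a => w (Sum.inr (Sum.inl (a, default)))))) x +
          (S *ᵥ (fun a => (EE γ D (i + 1) 0 *ᵥ fun x => w (Sum.inr (Sum.inr x)))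
            (Sum.inl (a, default)))) x = 0
        rw [h3, h4]; simp
      · show (EE γ D i 0 *ᵥ fun y => (EE γ D (i + 1) 0 *ᵥ fun x => w (Sum.inr (Sum.inr x)))
          (Sum.inr y)) x = 0
        rw [h2]
        exact congrFun ((EE_exact γ D hD i 0 _).mpr ⟨_, rfl⟩) x

/-- The linear part: only entries between generators whose degrees differ by one. -/
def lp {ι : ℕ → Type} (deg : (i : ℕ) → ι i → ℤ) (A : (i : ℕ) → Matrix (ι i) (ι (i + 1)) R) (i : ℕ) :
    Matrix (ι i) (ι (i + 1)) R :=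
  fun r c => if deg (i + 1) c = deg i r + 1 then A i r c else 0

lemma lp_main (i : ℕ) (r x : Fin 2) :
    lp (dg γ) (AA γ D X Y S) (i + 1) (Sum.inl r) (Sum.inl x) = alt X Y (i + 1) r x := by
  show (if ((i + 1 : ℕ) : ℤ) + 1 = (i : ℤ) + 1 + 1 then alt X Y (i + 1) r x else 0) = _
  rw [if_pos (by push_cast; ring)]

lemma lp_cross (i : ℕ) (r : Fin 2) (x : kap γ (i + 1) 0) :
    lp (dg γ) (AA γ D X Y S) (i + 1) (Sum.inl r) (Sum.inr x) = 0 := by
  show (if ((i + 1 : ℕ) : ℤ) + 2 = (i : ℤ) + 1 + 1 then _ else 0) = (0 : R)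
  rw [if_neg (by push_cast; omega)]

lemma lp_cross' (i : ℕ) (r : kap γ i 0) (x : Fin 2) :
    lp (dg γ) (AA γ D X Y S) (i + 1) (Sum.inr r) (Sum.inl x) = 0 := by
  show (if ((i + 1 : ℕ) : ℤ) + 1 = (i : ℤ) + 2 + 1 then _ else 0) = (0 : R)
  rw [if_neg (by push_cast; omega)]

lemma lp_succ_mulVec (i : ℕ) (v : idx γ (i + 2) → R) (r : Fin 2) :
    (lp (dg γ) (AA γ D X Y S) (i + 1) *ᵥ v) (Sum.inl r) =
      (alt X Y (i + 1) *ᵥ fun x => v (Sum.inl x)) r := by
  simp only [mulVec, dotProduct]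
  show ∑ x : Fin 2 ⊕ kap γ (i + 1) 0, lp (dg γ) (AA γ D X Y S) (i + 1) (Sum.inl r) x * v x = _
  rw [Fintype.sum_sum_type]
  simp only [lp_main, lp_cross, zero_mul, Finset.sum_const_zero, add_zero]

/-- The linear part has homology in every positive degree. -/
theorem lp_homology [Unique (γ 0)] (h : Splice X Y S m) (h1 : (1 : R) ∉ m) (i : ℕ) :
    ∃ v : idx γ (i + 1) → R, lp (dg γ) (AA γ D X Y S) i *ᵥ v = 0 ∧
      ∀ w, lp (dg γ) (AA γ D X Y S) (i + 1) *ᵥ w ≠ v := by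
  have hs := h.alt i
  have key : ∀ w, alt X Y (i + 1) *ᵥ w ≠ S *ᵥ (Pi.single 0 1 : Fin 2 → R) := by
    intro w hw
    have h2 : alt X Y (i + 1) *ᵥ w + S *ᵥ (-(Pi.single 0 1) : Fin 2 → R) = 0 := by
      rw [hw, Matrix.mulVec_neg, add_neg_cancel]
    have h3 := (hs.hYS _ _ h2).2 0
    apply h1
    simpa using h3
  refine ⟨Sum.elim (S *ᵥ (Pi.single 0 1 : Fin 2 → R)) (fun _ => 0), ?_, ?_⟩
  · have h4 : alt X Y i *ᵥ (S *ᵥ (Pi.single 0 1 : Fin 2 → R)) = 0 := by
      rw [hs.hX]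
      exact ⟨0, Pi.single 0 1, by rw [Matrix.mulVec_zero, zero_add]⟩
    rcases i with _ | i
    · ext r
      simp only [mulVec, dotProduct]
      show ∑ x : Fin 2 ⊕ kap γ 0 0, lp (dg γ) (AA γ D X Y S) 0 r x * _ = _
      rw [Fintype.sum_sum_type]
      have : ∀ x : Fin 2, lp (dg γ) (AA γ D X Y S) 0 r (Sum.inl x) = X r x := by
        intro x
        show (if ((0 : ℕ) : ℤ) + 1 = 0 + 1 then X r x else 0) = _
        rw [if_pos (by simp)]
      simp only [this, Sum.elim_inl, Sum.elim_inr, mul_zero, Finset.sum_const_zero, add_zero]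
      exact congrFun h4 r
    · ext r
      rcases r with r | r
      · rw [lp_succ_mulVec]
        exact congrFun h4 r
      · simp only [mulVec, dotProduct]
        show ∑ x : Fin 2 ⊕ kap γ (i + 1) 0, lp (dg γ) (AA γ D X Y S) (i + 1) (Sum.inr r) x * _ = _
        rw [Fintype.sum_sum_type]
        simp only [lp_cross', Sum.elim_inl, Sum.elim_inr, mul_zero, zero_mul,
          Finset.sum_const_zero, add_zero]
        rfl
  · intro w hw
    apply key (fun x => w (Sum.inl x))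
    ext r
    rw [← lp_succ_mulVec, hw]
    rfl

/-- Entries are forms of the right degrees. -/
theorem AA_forms (F : ℕ → R → Prop) (hX : ∀ r c, F 1 (X r c)) (hY : ∀ r c, F 1 (Y r c))
    (hS : ∀ r c, F 2 (S r c)) (hD : ∀ j r c, F 1 (D j r c)) (i : ℕ) (r : idx γ i)
    (c : idx γ (i + 1)) : AA γ D X Y S i r c = 0 ∨ ∃ e : ℕ, 1 ≤ e ∧
      dg γ (i + 1) c = dg γ i r + e ∧ F e (AA γ D X Y S i r c) := by
  have halt : ∀ i (X Y : Matrix (Fin 2) (Fin 2) R), (∀ r c, F 1 (X r c)) → (∀ r c, F 1 (Y r c)) →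
      ∀ r c, F 1 (alt X Y i r c) := by
    intro i
    induction i with
    | zero => intro X Y hX _; exact hX
    | succ i ih => intro X Y hX hY; exact ih Y X hY hX
  have hE : ∀ i j (r : kap γ i j) (c : kap γ i (j + 1)), EE γ D i j r c = 0 ∨
      F 1 (EE γ D i j r c) := by
    intro i
    induction i with
    | zero => intro j r c; exact r.elim
    | succ i ih =>
      intro j r c
      rcases r with r | r <;> rcases c with c | c
      · show dbl (D j) r c = 0 ∨ F 1 (dbl (D j) r c)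
        unfold dbl
        by_cases h : r.1 = c.1
        · rw [if_pos h]; exact Or.inr (hD _ _ _)
        · rw [if_neg h]; exact Or.inl rfl
      · exact Or.inl rfl
      · exact Or.inl rfl
      · exact ih (j + 1) r c
  rcases i with _ | i
  · rcases c with c | c
    · right
      refine ⟨1, le_rfl, ?_, hX r c⟩
      show ((0 : ℕ) : ℤ) + 1 = 0 + ((1 : ℕ) : ℤ)
      simp
    · exact c.elim
  · rcases r with r | r <;> rcases c with c | c
    · right
      refine ⟨1, le_rfl, ?_, halt (i + 1) X Y hX hY r c⟩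
      show ((i + 1 : ℕ) : ℤ) + 1 = (i : ℤ) + 1 + ((1 : ℕ) : ℤ)
      push_cast; ring
    · rcases c with c | c
      · right
        refine ⟨2, by norm_num, ?_, hS r c.1⟩
        show ((i + 1 : ℕ) : ℤ) + 2 = (i : ℤ) + 1 + ((2 : ℕ) : ℤ)
        push_cast; ring
      · exact Or.inl rfl
    · exact Or.inl rfl
    · rcases c with c | c
      · exact Or.inl rfl
      · rcases hE i 0 r c with h | h
        · exact Or.inl h
        · right
          refine ⟨1, le_rfl, ?_, h⟩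
          show ((i + 1 : ℕ) : ℤ) + 2 = (i : ℤ) + 2 + ((1 : ℕ) : ℤ)
          push_cast; ring

end

end Pool.Agent.Q122.UK
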