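import Mathlib
import Pool.Agent.Q122.UK.Model
import Pool.Agent.Q122.UK.Res

set_option autoImplicit false

/-!
# The algebra over the field with two elements

With `L` the field with four elements, `R_1 = L^3`, `R_2 = F_2^2 ⊕ L^2` and the product
`(x, y, z) (x', y', z') = (Tr (x x'), Tr (y y'), x z' + x' z + (z z')^2, y z' + y' z + (z z')^2)`.
-/

namespace Pool.Agent.Q122.UK

open MvPolynomial Matrix
open Pool.Agent.Results.MP_49092c_al.Disproof

/-- The product in coordinates. -/
def bf (l m : Fin 6 → ZMod 2) : Fin 6 → ZMod 2 :=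
  ![l 0 * m 1 + l 1 * m 0 + l 1 * m 1,
    l 2 * m 3 + l 3 * m 2 + l 3 * m 3,
    l 0 * m 4 + l 1 * m 5 + m 0 * l 4 + m 1 * l 5 + (l 4 * m 4 + l 4 * m 5 + l 5 * m 4),
    l 0 * m 5 + l 1 * m 4 + l 1 * m 5 + m 0 * l 5 + m 1 * l 4 + m 1 * l 5 +
      (l 4 * m 5 + l 5 * m 4 + l 5 * m 5),
    l 2 * m 4 + l 3 * m 5 + m 2 * l 4 + m 3 * l 5 + (l 4 * m 4 + l 4 * m 5 + l 5 * m 4),
    l 2 * m 5 + l 3 * m 4 + l 3 * m 5 + m 2 * l 5 + m 3 * l 4 + m 3 * l 5 +
      (l 4 * m 5 + l 5 * m 4 + l 5 * m 5)]

/-- The symmetric bilinear map. -/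
def Bc : SB (ZMod 2) 6 6 where
  b := LinearMap.mk₂ (ZMod 2) bf
    (by intro x y z; ext i; fin_cases i <;> simp [bf] <;> ring)
    (by intro a x y; ext i; fin_cases i <;> simp [bf] <;> ring)
    (by intro x y z; ext i; fin_cases i <;> simp [bf] <;> ring)
    (by intro a x y; ext i; fin_cases i <;> simp [bf] <;> ring)
  symm := by
    intro x y
    ext i
    fin_cases i <;> simp [bf] <;> ring

lemma Bc_apply (x y : Fin 6 → ZMod 2) : Bc.b x y = bf x y := rfl

/-- Decoding. -/
def dec (x : ℕ) : Fin 6 → ZMod 2 := fun i => if x.testBit i then 1 else 0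

/-- Digits in base 64. -/
def dig (T l : ℕ) : ℕ := (T / 64 ^ l) % 64

/-- Table. -/
def tY1 : ℕ := 0x69865b49045359455779c75f41345271f75e51755661b65a69b61979f71d493411597515083041083041083041083040
/-- Table. -/
def tY2 : ℕ := 0x823862b2fb6e927966a2ba6aaaba29bafb2d8a38219a7925aa8a6b8a08639a4967bacb6f20820830c30c104104104100
/-- Table. -/
def tV1 : Fin 6 → ℕ := ![0x41041041041041041041041082082082082082082082082041041041041041041041041041082041082041082041080,
    0x104104104104104104104104208208208208208208208208104104104104104104104104000000000000000000000000,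
    0x1040001040001040001040002002002002002002002002000041000041000041000041c20410c20410c20410c20400,
    0x1001001001001001001001082000082000082000082000040001040001040001040001430820430820430820430800,
    0x104104104104000000000000208208000000208208000000000000104104104104000000000000000000000000,
    0x104104000000104104208208208208000000000000104104000000000000104104000000000000000000000000]
/-- Table. -/
def tV2 : Fin 6 → ℕ := ![0xc30c30c30c30c30c30c30c30410410410410410410410410c30c30c30c30c30c30c30c3000000000000000000000000,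
    0x30c30c30c30c30c30c30c30c10410410410410410410410430c30c30c30c30c30c30c30c104104104104208208208200,
    0xc00030c00030c00030c00030c20c20c20c20c20c20c20c20c30000c30000c30000c3000000000000000000000000000,
    0x42042042042042042042042000041000041000041000041081042081042081042081042000000000000000000000000,
    0x30c30c00000000000030c30c30c30c20820830c30c20820830c30c30c30c000000000000c30c30820820410410410400,
    0x104104208208104104208208000000000000104104104104208208104104104104208208410410c30c30820820820800]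

set_option maxRecDepth 100000 in
lemma table : ∀ l : Fin 64, l ≠ 0 → bf (dec (dig tY1 l)) (dec l) = 0 ∧
    bf (dec (dig tY2 l)) (dec l) = 0 ∧ ∀ k : Fin 6,
      bf (dec (dig tY1 l)) (dec (dig (tV1 k) l)) + bf (dec (dig tY2 l)) (dec (dig (tV2 k) l)) =
        fun i => if i = k then 1 else 0 := by
  decide +kernel

set_option maxRecDepth 100000 in
lemma dec_surj : ∀ a b c d e f : ZMod 2, ∃ x : Fin 64, dec x = ![a, b, c, d, e, f] := by
  decide +kernel

lemma good : Lv.Good Bc := by
  intro l hl w
  obtain ⟨x, hx⟩ := dec_surj (l 0) (l 1) (l 2) (l 3) (l 4) (l 5)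
  have hx' : dec x = l := by
    rw [hx]; ext i; fin_cases i <;> rfl
  have hx0 : x ≠ 0 := by
    rintro rfl
    apply hl
    rw [← hx']
    ext i
    simp [dec]
  obtain ⟨h1, h2, h3⟩ := table x hx0
  rw [hx'] at h1 h2
  set P := Submodule.span (ZMod 2) {z | ∃ y v, Bc.b y l = 0 ∧ z = Bc.b y v} with hP
  have h4 : ∀ k : Fin 6, (fun i => if i = k then 1 else 0 : Fin 6 → ZMod 2) ∈ P := by
    intro k
    rw [← h3 k]
    exact P.add_mem (Submodule.subset_span ⟨_, _, h1, rfl⟩) (Submodule.subset_span ⟨_, _, h2, rfl⟩)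
  have h5 : w = ∑ k, w k • (fun i => if i = k then 1 else 0 : Fin 6 → ZMod 2) := by
    ext i
    simp
  rw [h5]
  exact P.sum_mem fun k _ => P.smul_mem _ (h4 k)

lemma spans : Lv.Spans Bc := by
  intro w
  have hl : (Pi.single 0 1 : Fin 6 → ZMod 2) ≠ 0 := by
    intro h
    have := congrFun h 0
    simp at this
  refine Submodule.span_mono ?_ (good _ hl w)
  rintro _ ⟨y, v, _, rfl⟩
  exact ⟨y, v, rfl⟩

end Pool.Agent.Q122.UK
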