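import Mathlib
import Pool.Agent.Q122.UK.Conc

set_option autoImplicit false

/-!
# An exact pair over the field with four elements, as matrices over the algebra
-/

namespace Pool.Agent.Q122.UK

open MvPolynomial Matrix Lv
open Pool.Agent.Results.MP_49092c_al.Disproof

/-- Linear forms. -/
def lin (v : Fin 6 → ZMod 2) : Lv Bc := mk 0 v 0

/-- The matrix `X`. -/
def X0 : Matrix (Fin 2) (Fin 2) (Lv Bc) :=
  !![lin ![1, 1, 0, 0, 1, 0], lin ![1, 0, 0, 0, 0, 0];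
    lin ![1, 0, 0, 0, 0, 0], lin ![0, 1, 0, 0, 1, 0]]

/-- The matrix `Y`. -/
def Y0 : Matrix (Fin 2) (Fin 2) (Lv Bc) :=
  !![lin ![0, 1, 1, 0, 1, 0], lin ![1, 0, 0, 0, 0, 0];
    lin ![1, 0, 0, 0, 0, 0], lin ![1, 1, 1, 0, 1, 0]]

/-- The socle element. -/
def sv : Lv Bc := mk 0 0 ![0, 1, 0, 0, 0, 0]

/-- The matrix `S`. -/
def S0 : Matrix (Fin 2) (Fin 2) (Lv Bc) := !![sv, 0; 0, sv]

/-- The maximal ideal. -/
def m0 : Ideal (Lv Bc) where
  carrier := {x | x.c = 0}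
  add_mem' := by intro a b ha hb; show (a + b).c = 0; rw [add_c, show a.c = 0 from ha,
    show b.c = 0 from hb, add_zero]
  zero_mem' := rfl
  smul_mem' := by intro a b hb; show (a * b).c = 0; rw [mul_c, show b.c = 0 from hb, mul_zero]

lemma mem_m0 (x : Lv Bc) : x ∈ m0 ↔ x.c = 0 := Iff.rfl

@[simp] lemma lin_c (v : Fin 6 → ZMod 2) : (lin v).c = 0 := rfl
@[simp] lemma lin_l (v : Fin 6 → ZMod 2) : (lin v).l = v := rfl
@[simp] lemma lin_q (v : Fin 6 → ZMod 2) : (lin v).q = 0 := rfl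
@[simp] lemma sv_c : sv.c = 0 := rfl
@[simp] lemma sv_l : sv.l = 0 := rfl
@[simp] lemma sv_q : sv.q = ![0, 1, 0, 0, 0, 0] := rfl

/-- Unfolding of `X v = 0`. -/
lemma X0_iff (v : Fin 2 → Lv Bc) : X0 *ᵥ v = 0 ↔
    (v 0).c = 0 ∧ (v 1).c = 0 ∧
    (v 0).l = ![(v 1).l 4, (v 0).l 4, (v 0).l 4, 0, (v 0).l 4, 0] ∧
    (v 1).l = ![(v 0).l 4 + (v 1).l 4, (v 1).l 4, (v 1).l 4, 0, (v 1).l 4, 0] := by
  have hexp : X0 *ᵥ v = ![lin ![1, 1, 0, 0, 1, 0] * v 0 + lin ![1, 0, 0, 0, 0, 0] * v 1,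
      lin ![1, 0, 0, 0, 0, 0] * v 0 + lin ![0, 1, 0, 0, 1, 0] * v 1] := by
    ext i : 1
    fin_cases i <;> simp [X0, mulVec, dotProduct, Fin.sum_univ_two]
  rw [hexp]
  constructor
  · intro h
    have e0 := congrFun h 0
    have e1 := congrFun h 1
    simp only [cons_val_zero, cons_val_one, Pi.zero_apply] at e0 e1
    have l0 : ∀ i, (lin ![1, 1, 0, 0, 1, 0] * v 0 + lin ![1, 0, 0, 0, 0, 0] * v 1).l i = 0 := by
      intro i; rw [e0]; rfl
    have a1 := l0 1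
    have a0 := l0 0
    simp at a1 a0
    rw [a1, zero_add] at a0
    have q0 : ∀ i, (lin ![1, 1, 0, 0, 1, 0] * v 0 + lin ![1, 0, 0, 0, 0, 0] * v 1).q i = 0 := by
      intro i; rw [e0]; rfl
    have q1 : ∀ i, (lin ![1, 0, 0, 0, 0, 0] * v 0 + lin ![0, 1, 0, 0, 1, 0] * v 1).q i = 0 := by
      intro i; rw [e1]; rfl
    have b0 := q0 0
    have b2 := q0 2
    have b3 := q0 3
    have b4 := q0 4
    have b5 := q0 5
    have d0 := q1 0
    have d2 := q1 2
    have d3 := q1 3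
    have d4 := q1 4
    have d5 := q1 5
    simp [Bc_apply, bf, a1, a0] at b0 b2 b3 b4 b5 d0 d2 d3 d4 d5
    refine ⟨a1, a0, ?_, ?_⟩
    · ext i
      fin_cases i <;> simp <;> grind
    · ext i
      fin_cases i <;> simp <;> grind
  · rintro ⟨h1, h2, h3, h4⟩
    ext i j
    · fin_cases i <;> simp [h1, h2]
    · fin_cases i <;> simp [h1, h2]
    · fin_cases i
      · show (lin ![1, 1, 0, 0, 1, 0] * v 0 + lin ![1, 0, 0, 0, 0, 0] * v 1).q j = 0
        simp only [add_q, mul_q, lin_c, lin_l, lin_q, h1, h2, Bc_apply]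
        rw [h3, h4]
        fin_cases j <;> simp [bf] <;> grind
      · show (lin ![1, 0, 0, 0, 0, 0] * v 0 + lin ![0, 1, 0, 0, 1, 0] * v 1).q j = 0
        simp only [add_q, mul_q, lin_c, lin_l, lin_q, h1, h2, Bc_apply]
        rw [h3, h4]
        fin_cases j <;> simp [bf] <;> grind

/-- Unfolding of `Y v = 0`. -/
lemma Y0_iff (v : Fin 2 → Lv Bc) : Y0 *ᵥ v = 0 ↔
    (v 0).c = 0 ∧ (v 1).c = 0 ∧
    (v 0).l = ![(v 0).l 4 + (v 1).l 4, (v 0).l 4, 0, 0, (v 0).l 4, 0] ∧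
    (v 1).l = ![(v 0).l 4, (v 1).l 4, 0, 0, (v 1).l 4, 0] := by
  have hexp : Y0 *ᵥ v = ![lin ![0, 1, 1, 0, 1, 0] * v 0 + lin ![1, 0, 0, 0, 0, 0] * v 1,
      lin ![1, 0, 0, 0, 0, 0] * v 0 + lin ![1, 1, 1, 0, 1, 0] * v 1] := by
    ext i : 1
    fin_cases i <;> simp [Y0, mulVec, dotProduct, Fin.sum_univ_two]
  rw [hexp]
  constructor
  · intro h
    have e0 := congrFun h 0
    have e1 := congrFun h 1
    simp only [cons_val_zero, cons_val_one, Pi.zero_apply] at e0 e1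
    have l0 : ∀ i, (lin ![0, 1, 1, 0, 1, 0] * v 0 + lin ![1, 0, 0, 0, 0, 0] * v 1).l i = 0 := by
      intro i; rw [e0]; rfl
    have a1 := l0 1
    have a0 := l0 0
    simp at a1 a0
    have q0 : ∀ i, (lin ![0, 1, 1, 0, 1, 0] * v 0 + lin ![1, 0, 0, 0, 0, 0] * v 1).q i = 0 := by
      intro i; rw [e0]; rfl
    have q1 : ∀ i, (lin ![1, 0, 0, 0, 0, 0] * v 0 + lin ![1, 1, 1, 0, 1, 0] * v 1).q i = 0 := by
      intro i; rw [e1]; rfl
    have b0 := q0 0
    have b1 := q0 1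
    have b2 := q0 2
    have b3 := q0 3
    have b4 := q0 4
    have b5 := q0 5
    have d0 := q1 0
    have d1 := q1 1
    have d2 := q1 2
    have d3 := q1 3
    have d4 := q1 4
    have d5 := q1 5
    simp [Bc_apply, bf, a1, a0] at b0 b1 b2 b3 b4 b5 d0 d1 d2 d3 d4 d5
    refine ⟨a1, a0, ?_, ?_⟩
    · ext i
      fin_cases i <;> simp <;> grind
    · ext i
      fin_cases i <;> simp <;> grind
  · rintro ⟨h1, h2, h3, h4⟩
    ext i j
    · fin_cases i <;> simp [h1, h2]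
    · fin_cases i <;> simp [h1, h2]
    · fin_cases i
      · show (lin ![0, 1, 1, 0, 1, 0] * v 0 + lin ![1, 0, 0, 0, 0, 0] * v 1).q j = 0
        simp only [add_q, mul_q, lin_c, lin_l, lin_q, h1, h2, Bc_apply]
        rw [h3, h4]
        fin_cases j <;> simp [bf] <;> grind
      · show (lin ![1, 0, 0, 0, 0, 0] * v 0 + lin ![1, 1, 1, 0, 1, 0] * v 1).q j = 0
        simp only [add_q, mul_q, lin_c, lin_l, lin_q, h1, h2, Bc_apply]
        rw [h3, h4]
        fin_cases j <;> simp [bf] <;> grind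

lemma X0_exp (v : Fin 2 → Lv Bc) :
    X0 *ᵥ v = ![lin ![1, 1, 0, 0, 1, 0] * v 0 + lin ![1, 0, 0, 0, 0, 0] * v 1,
      lin ![1, 0, 0, 0, 0, 0] * v 0 + lin ![0, 1, 0, 0, 1, 0] * v 1] := by
  ext i : 1
  fin_cases i <;> simp [X0, mulVec, dotProduct, Fin.sum_univ_two]

lemma Y0_exp (v : Fin 2 → Lv Bc) :
    Y0 *ᵥ v = ![lin ![0, 1, 1, 0, 1, 0] * v 0 + lin ![1, 0, 0, 0, 0, 0] * v 1,
      lin ![1, 0, 0, 0, 0, 0] * v 0 + lin ![1, 1, 1, 0, 1, 0] * v 1] := by
  ext i : 1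
  fin_cases i <;> simp [Y0, mulVec, dotProduct, Fin.sum_univ_two]

lemma S0_exp (v : Fin 2 → Lv Bc) : S0 *ᵥ v = ![sv * v 0, sv * v 1] := by
  ext i : 1
  fin_cases i <;> simp [S0, mulVec, dotProduct, Fin.sum_univ_two]

lemma sv_mul {x : Lv Bc} (h : x.c = 0) : sv * x = 0 := by
  ext j
  · simp
  · simp [h]
  · simp [h, Bc_apply, bf]

lemma S0_zero (c : Fin 2 → Lv Bc) (h : ∀ i, c i ∈ m0) : S0 *ᵥ c = 0 := by
  rw [S0_exp, sv_mul (h 0), sv_mul (h 1)]
  ext i : 1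
  fin_cases i <;> rfl

lemma split2 {A : Type} {a b a' b' : A} (h1 : a = a') (h2 : b = b') : ![a, b] = ![a', b'] := by
  rw [h1, h2]

theorem splice0 : Splice X0 Y0 S0 m0 where
  hX := by
    intro v
    constructor
    · intro h
      obtain ⟨h1, h2, h3, h4⟩ := (X0_iff v).mp h
      refine ⟨![mk ((v 0).l 4) ![(v 0).q 2, (v 0).q 3 + ((v 1).q 0 + (v 0).q 3 + (v 1).q 2),
          (v 0).q 4 + ((v 0).q 0 + (v 0).q 2 + (v 0).q 3 + (v 1).q 3), (v 0).q 5, 0,
          ((v 0).q 0 + (v 0).q 2 + (v 0).q 3 + (v 1).q 3)] 0,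
        mk ((v 1).l 4) ![(v 1).q 2, (v 1).q 3 + ((v 0).q 0 + (v 0).q 2 + (v 0).q 3 + (v 1).q 3) +
          ((v 1).q 0 + (v 0).q 3 + (v 1).q 2), (v 1).q 4 + ((v 1).q 0 + (v 0).q 3 + (v 1).q 2),
          (v 1).q 5, 0, ((v 1).q 0 + (v 0).q 3 + (v 1).q 2)] 0],
        ![emb Bc ((v 0).q 1 + (v 0).q 5), emb Bc ((v 1).q 1 + (v 1).q 5)], ?_⟩
      rw [Y0_exp, S0_exp]
      ext i j
      · fin_cases i
        · show (v 0).c = _
          simp [h1]
        · show (v 1).c = _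
          simp [h2]
      · fin_cases i
        · show (v 0).l j = _
          rw [h3]
          fin_cases j <;> simp
        · show (v 1).l j = _
          rw [h4]
          fin_cases j <;> simp
      · fin_cases i
        · show (v 0).q j = _
          fin_cases j <;> simp [Bc_apply, bf] <;> grind
        · show (v 1).q j = _
          fin_cases j <;> simp [Bc_apply, bf] <;> grind
    · rintro ⟨w, c, rfl⟩
      rw [X0_iff, Y0_exp, S0_exp]
      refine ⟨by simp, by simp, ?_, ?_⟩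
      · ext j
        fin_cases j <;> simp
      · ext j
        fin_cases j <;> simp
  hY := by
    intro v
    constructor
    · intro h
      obtain ⟨h1, h2, h3, h4⟩ := (Y0_iff v).mp h
      refine ⟨![mk ((v 0).l 4) ![(v 0).q 2, (v 0).q 3 + ((v 0).q 0 + (v 0).q 2 + (v 1).q 3) +
          ((v 1).q 0 + (v 0).q 3 + (v 1).q 2 + (v 1).q 3),
          (v 0).q 4 + ((v 0).q 0 + (v 0).q 2 + (v 1).q 3),
          (v 0).q 5 + ((v 0).q 0 + (v 0).q 2 + (v 1).q 3), 0,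
          ((v 0).q 0 + (v 0).q 2 + (v 1).q 3)] 0,
        mk ((v 1).l 4) ![(v 1).q 2, (v 1).q 3 + ((v 0).q 0 + (v 0).q 2 + (v 1).q 3),
          (v 1).q 4 + ((v 1).q 0 + (v 0).q 3 + (v 1).q 2 + (v 1).q 3),
          (v 1).q 5 + ((v 1).q 0 + (v 0).q 3 + (v 1).q 2 + (v 1).q 3), 0,
          ((v 1).q 0 + (v 0).q 3 + (v 1).q 2 + (v 1).q 3)] 0],
        ![emb Bc ((v 0).q 1), emb Bc ((v 1).q 1)], ?_⟩
      rw [X0_exp, S0_exp]
      ext i j
      · fin_cases i
        · show (v 0).c = _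
          simp [h1]
        · show (v 1).c = _
          simp [h2]
      · fin_cases i
        · show (v 0).l j = _
          rw [h3]
          fin_cases j <;> simp
        · show (v 1).l j = _
          rw [h4]
          fin_cases j <;> simp
      · fin_cases i
        · show (v 0).q j = _
          fin_cases j <;> simp [Bc_apply, bf] <;> grind
        · show (v 1).q j = _
          fin_cases j <;> simp [Bc_apply, bf] <;> grind
    · rintro ⟨w, c, rfl⟩
      rw [Y0_iff, X0_exp, S0_exp]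
      refine ⟨by simp, by simp, ?_, ?_⟩
      · ext j
        fin_cases j <;> simp
      · ext j
        fin_cases j <;> simp
  hXS := by
    intro v c h
    have hc : ∀ i, c i ∈ m0 := by
      rw [X0_exp, S0_exp] at h
      have e0 : ((lin ![1, 1, 0, 0, 1, 0] * v 0 + lin ![1, 0, 0, 0, 0, 0] * v 1) +
          sv * c 0).q 1 = 0 := by
        have := congrFun h 0
        exact congrFun (congrArg Lv.q this) 1
      have e1 : ((lin ![1, 0, 0, 0, 0, 0] * v 0 + lin ![0, 1, 0, 0, 1, 0] * v 1) +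
          sv * c 1).q 1 = 0 := by
        have := congrFun h 1
        exact congrFun (congrArg Lv.q this) 1
      simp [Bc_apply, bf] at e0 e1
      intro i
      fin_cases i
      · exact e0
      · exact e1
    refine ⟨?_, hc⟩
    rwa [S0_zero c hc, add_zero] at h
  hYS := by
    intro v c h
    have hc : ∀ i, c i ∈ m0 := by
      rw [Y0_exp, S0_exp] at h
      have h0 : (lin ![0, 1, 1, 0, 1, 0] * v 0 + lin ![1, 0, 0, 0, 0, 0] * v 1) +
          sv * c 0 = 0 := congrFun h 0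
      have h1 : (lin ![1, 0, 0, 0, 0, 0] * v 0 + lin ![1, 1, 1, 0, 1, 0] * v 1) +
          sv * c 1 = 0 := congrFun h 1
      have e0 : ((lin ![0, 1, 1, 0, 1, 0] * v 0 + lin ![1, 0, 0, 0, 0, 0] * v 1) +
          sv * c 0).q 1 = 0 := by rw [h0]; rfl
      have e1 : ((lin ![1, 0, 0, 0, 0, 0] * v 0 + lin ![1, 1, 1, 0, 1, 0] * v 1) +
          sv * c 1).q 1 = 0 := by rw [h1]; rfl
      have f0 : ((lin ![0, 1, 1, 0, 1, 0] * v 0 + lin ![1, 0, 0, 0, 0, 0] * v 1) +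
          sv * c 0).q 5 = 0 := by rw [h0]; rfl
      have f1 : ((lin ![1, 0, 0, 0, 0, 0] * v 0 + lin ![1, 1, 1, 0, 1, 0] * v 1) +
          sv * c 1).q 5 = 0 := by rw [h1]; rfl
      have g0 : ((lin ![0, 1, 1, 0, 1, 0] * v 0 + lin ![1, 0, 0, 0, 0, 0] * v 1) +
          sv * c 0).l 2 = 0 := by rw [h0]; rfl
      have g1 : ((lin ![1, 0, 0, 0, 0, 0] * v 0 + lin ![1, 1, 1, 0, 1, 0] * v 1) +
          sv * c 1).l 2 = 0 := by rw [h1]; rfl
      simp [Bc_apply, bf] at e0 e1 f0 f1 g0 g1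
      intro i
      rw [mem_m0]
      fin_cases i
      · show (c 0).c = 0
        grind
      · show (c 1).c = 0
        grind
    refine ⟨?_, hc⟩
    rwa [S0_zero c hc, add_zero] at h
  hS := S0_zero

end Pool.Agent.Q122.UK
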