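import Mathlib
import Pool.Agent.Q122.UK.Conc2

set_option autoImplicit false

/-!
# The infinite linear part over the quotient of the polynomial ring
-/

namespace Pool.Agent.Q122.UK

open MvPolynomial Matrix Lv
open Pool.Agent.Results.MP_49092c_al.Disproof

section

variable {R R' : Type} [CommRing R] [CommRing R']

lemma map_mulVec' (f : R ≃+* R') {α β : Type} [Fintype β] (M : Matrix α β R) (v : β → R') :
    (M.map f) *ᵥ v = fun i => f ((M *ᵥ fun j => f.symm (v j)) i) := by
  ext i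
  simp [mulVec, dotProduct]

lemma Splice.map (f : R ≃+* R') {X Y S : Matrix (Fin 2) (Fin 2) R} {m : Ideal R}
    (h : Splice X Y S m) : Splice (X.map f) (Y.map f) (S.map f) (m.comap f.symm) := by
  have key : ∀ {X Y S : Matrix (Fin 2) (Fin 2) R},
      (∀ v, X *ᵥ v = 0 ↔ ∃ w c, v = Y *ᵥ w + S *ᵥ c) →
      ∀ v, X.map f *ᵥ v = 0 ↔ ∃ w c, v = Y.map f *ᵥ w + S.map f *ᵥ c := by
    intro X Y S h v
    have h1 : X.map f *ᵥ v = 0 ↔ X *ᵥ (fun j => f.symm (v j)) = 0 := by
      rw [map_mulVec']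
      constructor
      · intro h
        ext i
        have := congrFun h i
        simpa using this
      · intro h
        rw [h]
        ext i
        simp
    rw [h1, h]
    constructor
    · rintro ⟨w, c, hwc⟩
      refine ⟨fun i => f (w i), fun i => f (c i), ?_⟩
      rw [map_mulVec', map_mulVec']
      ext i
      have := congrArg f (congrFun hwc i)
      simpa using this
    · rintro ⟨w, c, rfl⟩
      refine ⟨fun i => f.symm (w i), fun i => f.symm (c i), ?_⟩
      rw [map_mulVec', map_mulVec']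
      ext i
      simp
  have key2 : ∀ {X : Matrix (Fin 2) (Fin 2) R},
      (∀ v c, X *ᵥ v + S *ᵥ c = 0 → X *ᵥ v = 0 ∧ ∀ i, c i ∈ m) →
      ∀ v c, X.map f *ᵥ v + S.map f *ᵥ c = 0 → X.map f *ᵥ v = 0 ∧ ∀ i, c i ∈ m.comap f.symm := by
    intro X h v c hvc
    rw [map_mulVec', map_mulVec'] at hvc
    have h1 := h (fun j => f.symm (v j)) (fun j => f.symm (c j)) (by
      ext i
      have := congrFun hvc i
      simp only [Pi.add_apply, Pi.zero_apply, ← map_add, EmbeddingLike.map_eq_zero_iff] at this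
      simpa using this)
    refine ⟨?_, fun i => h1.2 i⟩
    rw [map_mulVec', h1.1]
    ext i
    simp
  refine ⟨key h.hX, key h.hY, key2 h.hXS, key2 h.hYS, ?_⟩
  intro c hc
  rw [map_mulVec', h.hS _ fun i => hc i]
  ext i
  simp

end

/-- The relations of the algebra. -/
noncomputable abbrev JJ : Ideal (MvPolynomial (Fin 6) (ZMod 2)) := J Bc

/-- The quotient. -/
abbrev Q : Type := MvPolynomial (Fin 6) (ZMod 2) ⧸ JJ

/-- The isomorphism with the model. -/
noncomputable abbrev ee : Lv Bc ≃+* Q := (e spans).symm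

theorem standard : IsStandard JJ := J_standard Bc

theorem uk : UniversallyKoszul JJ := universallyKoszul spans good

/-- The matrices over the quotient. -/
noncomputable abbrev X1 : Matrix (Fin 2) (Fin 2) Q := X0.map ee
noncomputable abbrev Y1 : Matrix (Fin 2) (Fin 2) Q := Y0.map ee
noncomputable abbrev S1 : Matrix (Fin 2) (Fin 2) Q := S0.map ee
noncomputable abbrev m1 : Ideal Q := m0.comap ee.symm

theorem splice1 : Splice X1 Y1 S1 m1 := splice0.map ee

lemma mem_m1 (x : Q) : x ∈ m1 ↔ (e spans x).c = 0 := Iff.rfl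

lemma form_of_gr {i : ℕ} {x : Lv Bc} (h : gr Bc i x) : IsForm JJ i (ee x) := by
  rw [isForm_iff spans]
  simpa using h

lemma X1_form (r c : Fin 2) : IsForm JJ 1 (X1 r c) := by
  apply form_of_gr
  fin_cases r <;> fin_cases c <;> exact ⟨rfl, rfl⟩

lemma Y1_form (r c : Fin 2) : IsForm JJ 1 (Y1 r c) := by
  apply form_of_gr
  fin_cases r <;> fin_cases c <;> exact ⟨rfl, rfl⟩

lemma S1_form (r c : Fin 2) : IsForm JJ 2 (S1 r c) := by
  apply form_of_gr
  fin_cases r <;> fin_cases c <;> exact ⟨rfl, rfl⟩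

lemma one_not_mem : (1 : Q) ∉ m1 := by
  rw [mem_m1, map_one]
  exact one_ne_zero

lemma m1_eq : m1 = Ideal.span {r : Q | IsForm JJ 1 r} := by
  apply le_antisymm
  · intro x hx
    obtain ⟨p, rfl⟩ := Ideal.Quotient.mk_surjective x
    rw [mem_m1, e_mk, (phi_coeff Bc p).1] at hx
    have hp : p ∈ idealOfVars (Fin 6) (ZMod 2) := by
      rw [← pow_one (idealOfVars (Fin 6) (ZMod 2)), mem_pow_idealOfVars_iff']
      intro s hs
      have : s = 0 := by
        have h0 : s.degree = 0 := by omega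
        rwa [Finsupp.degree_eq_zero_iff] at h0
      rw [this, hx]
    have h2 : idealOfVars (Fin 6) (ZMod 2) ≤
        (Ideal.span {r : Q | IsForm JJ 1 r}).comap (Ideal.Quotient.mk JJ) := by
      rw [idealOfVars, Ideal.span_le]
      rintro _ ⟨i, rfl⟩
      exact Ideal.subset_span ⟨X i, isHomogeneous_X _ _, rfl⟩
    exact h2 hp
  · rw [Ideal.span_le]
    intro x hx
    exact ((isForm_iff spans 1 x).mp hx).1

/-- The final form. -/
theorem main : ∃ (γ : ℕ → Type) (_ : ∀ i, Fintype (γ i)) (D : ∀ j, Matrix (γ j) (γ (j + 1)) Q),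
    (∀ i (v : idx γ (i + 1) → Q),
      AA γ D X1 Y1 S1 i *ᵥ v = 0 ↔ ∃ w, AA γ D X1 Y1 S1 (i + 1) *ᵥ w = v) ∧
    (∀ i r c, AA γ D X1 Y1 S1 i r c = 0 ∨ ∃ e : ℕ, 1 ≤ e ∧
      dg γ (i + 1) c = dg γ i r + e ∧ IsForm JJ e (AA γ D X1 Y1 S1 i r c)) ∧
    (∀ i, ∃ v : idx γ (i + 1) → Q, lp (dg γ) (AA γ D X1 Y1 S1) i *ᵥ v = 0 ∧
      ∀ w, lp (dg γ) (AA γ D X1 Y1 S1) (i + 1) *ᵥ w ≠ v) := by
  have hI : LinearlyGenerated JJ m1 := by
    unfold LinearlyGenerated
    have h2 : {r : Q | r ∈ m1 ∧ IsForm JJ 1 r} = {r : Q | IsForm JJ 1 r} := by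
      ext x
      constructor
      · exact fun h => h.2
      · intro h
        refine ⟨?_, h⟩
        rw [m1_eq]
        exact Ideal.subset_span h
    rw [h2]
    exact m1_eq
  obtain ⟨b, g, A, hg, hA, hspan, hex0, hex⟩ := uk m1 hI
  let γ : ℕ → Type := fun j => match j with
    | 0 => Unit
    | j + 1 => Fin (b j)
  let hγ : ∀ j, Fintype (γ j) := fun j => match j with
    | 0 => inferInstanceAs (Fintype Unit)
    | j + 1 => inferInstanceAs (Fintype (Fin (b j)))
  let D : ∀ j, Matrix (γ j) (γ (j + 1)) Q := fun j => match j with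
    | 0 => (fun _ c => g c : Matrix Unit (Fin (b 0)) Q)
    | j + 1 => A j
  have hD0 : ∀ w : Fin (b 0) → Q, D 0 *ᵥ w = fun _ => ∑ j, w j * g j := by
    intro w
    ext x
    simp only [mulVec, dotProduct]
    exact Finset.sum_congr rfl fun j _ => mul_comm _ _
  haveI : Unique (γ 0) := inferInstanceAs (Unique Unit)
  have hD : ∀ j (v : γ (j + 1) → Q), D j *ᵥ v = 0 ↔ ∃ w, D (j + 1) *ᵥ w = v := by
    intro j v
    rcases j with _ | j
    · have h1 : D 0 *ᵥ v = 0 ↔ ∑ j, v j * g j = 0 := by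
        rw [hD0]
        constructor
        · intro h; exact congrFun h ()
        · intro h; ext x; exact h
      rw [h1]
      exact hex0 v
    · exact hex j v
  have hm : ∀ x : Q, x ∈ m1 ↔ ∃ w, D 0 *ᵥ w = fun _ => x := by
    intro x
    rw [← hspan, Ideal.mem_span_range_iff_exists_fun]
    constructor
    · rintro ⟨w, hw⟩
      exact ⟨w, by rw [hD0, hw]⟩
    · rintro ⟨w, hw⟩
      rw [hD0] at hw
      exact ⟨w, congrFun hw ()⟩
  refine ⟨γ, hγ, D, ?_, ?_, ?_⟩
  · exact AA_exact γ D splice1 hD hm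
  · refine AA_forms γ D (IsForm JJ) X1_form Y1_form S1_form ?_
    intro j r c
    rcases j with _ | j
    · exact hg c
    · exact hA j r c
  · exact lp_homology γ D splice1 one_not_mem

end Pool.Agent.Q122.UK
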